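import Pool.Agent.H509.ST.PagesD

/-!
# MP_29cb78_nt: rank one Stark over ATR fields for ray class groups of exponent two

Let `k` be an ATR field (exactly one complex place, `r ≥ 1` real places), `𝔣 ≠ 0` an ideal,
`𝔣 ≠ 𝓞 k` if `r = 1`, `S` the set of the archimedean places and of the primes dividing `𝔣`, and `H / k` an
abelian extension which is unramified outside `𝔣` and whose Galois group has exponent two. For example
`H` is the narrow ray class field `k⁺(𝔣)` if `Cl⁺(𝔣)` has exponent two, and in general its largest
subfield of exponent two.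

**Theorem.** Suppose that (a) at least one prime ideal above two is unramified in `H` (for example, is
prime to `𝔣`), or (b) `#Σ ≤ 2 ^ (#S - 1)`, where `Σ` is the subgroup of `Gal(H/k)` which is generated by
the decomposition groups of the places of `S`, or (c) `H` is not maximal: there is an `x ∈ k^*`, with even
valuations at all prime ideals which are unramified in `H`, such that `√x` is in no compositum `H E`,
where `E / k` is abelian, unramified at all prime ideals and all infinite places, and the prime ideals
which are ramified in `H` split in `E`. Then Stark's conjecture (Q1) holds for `H`: for every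
embedding `φ` of `H` above the complex place there is a unit `u` of `H` such that
1. `ζ'(ρ, 0) = - (1/e) log |φ (ρ u)|²` for all `ρ` in `Gal(H/k)`;
2. `|τ u| = 1` for all embeddings `τ` of `H` above the real embeddings of `k`;
3. `H (u ^ (1/e)) / k` is abelian; `e` is the number of the roots of unity in `H`.

So for groups of exponent two only the maximal fields are left: for example, if `k` has odd class
number, for each set `R` of prime ideals (containing all those above two) only the field
`H = k(√x : x ∈ k^*, v(x) even for v ∉ R)`.

The proof: if a real place of `k` splits in `H` then `u = 1`. Otherwise `r` real places become complex in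
`H`, and under (a) the sum of the degrees `[k_v : ℚ_2]` of the ramified `v` is at most `r + 1`, so that
the isotropy of the Kummer group of `H / k` implies (b) (in general it gives `#Σ ≤ 2 ^ #S`, and
equality is possible). Under (c) the class of `x` and the Kummer group generate a strictly larger
isotropic group, and again (b) follows. Under (b) Rubin's and Popescu's conjectures hold for `H / k`
(`MP_dd9835_nt.MultiquadraticExtensions`).
-/

set_option autoImplicit false

open NumberField IsDedekindDomain

noncomputable section

namespace Pool.Agent.Results.MP_29cb78_nt.ExponentTwo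

open Pool.Agent.N598.ST (Place Over nabs Unram TotallySplit IsArtin IsZeta AbRoot W)
open Pool.Agent.N820.RS (IsModulus)

/-- `k` is an ATR field: it has at least one real place and exactly one complex place. -/
structure IsATR (k : Type) [Field k] [NumberField k] : Prop where
  real : 1 ≤ InfinitePlace.nrRealPlaces k
  complex : InfinitePlace.nrComplexPlaces k = 1

/-- The valuation of `x` at `v` is even: it is the valuation of a square. -/
def EvenAt {k : Type} [Field k] [NumberField k] (v : HeightOneSpectrum (𝓞 k)) (x : k) : Prop :=
  ∃ y : k, v.valuation k x = v.valuation k y ^ 2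

/-- `E / k` is unramified at all prime ideals and at all infinite places, and the prime ideals which are
ramified in `H` split totally in `E`. -/
def SmallUnder (k H E : Type) [Field k] [NumberField k] [Field H] [NumberField H] [Algebra k H]
    [Field E] [NumberField E] [Algebra k E] : Prop :=
  ((∀ v : HeightOneSpectrum (𝓞 k), Unram k E v) ∧ ∀ w : InfinitePlace E, w.IsUnramified k) ∧
    ∀ v : HeightOneSpectrum (𝓞 k), ¬ Unram k H v → TotallySplit k E (Sum.inr v)

/-- The field `H` (of exponent two over `k`) is not maximal: there is an `x ∈ k^*`, with even valuations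
at all prime ideals which are unramified in `H`, such that `√x` is in no compositum `H E` with an abelian
extension `E / k` as in `SmallUnder`, that is (Kummer theory), `x y` is not a square in `E` for all
`y ∈ k^*` which are squares in `H`. -/
def NotMaximal (k H : Type) [Field k] [NumberField k] [Field H] [NumberField H] [Algebra k H] :
    Prop :=
  ∃ x : k, x ≠ 0 ∧ (∀ v : HeightOneSpectrum (𝓞 k), Unram k H v → EvenAt v x) ∧
    ∀ (E : Type) [Field E] [NumberField E] [Algebra k E] [IsAbelianGalois k E], SmallUnder k H E →
      ∀ (y : k) (b : H) (e : E), y ≠ 0 → b ^ 2 = algebraMap k H y → e ^ 2 ≠ algebraMap k E (x * y)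

theorem notMaximal {k H : Type} [Field k] [NumberField k] [Field H] [NumberField H] [Algebra k H]
    (h : NotMaximal k H) : Pool.Agent.H896.SG.NotMaximal k H := by
  obtain ⟨x, h0, h1, h2⟩ := h
  exact ⟨x, h0, h1, fun E _ _ _ _ h3 h4 => h2 E ⟨h3, h4⟩⟩

/-- **Stark's conjecture over ATR fields, exponent two.** -/
theorem result (k : Type) [Field k] [NumberField k] (hk : IsATR k) (𝔣 : Ideal (𝓞 k)) (hf0 : 𝔣 ≠ ⊥)
    (hf1 : InfinitePlace.nrRealPlaces k = 1 → 𝔣 ≠ ⊤) (S : Finset (Place k)) (hS : IsModulus 𝔣 S)
    (H : Type) [Field H] [NumberField H] [Algebra k H] [IsAbelianGalois k H]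
    (h2 : ∀ g : Gal(H/k), g * g = 1)
    (hu : ∀ q : HeightOneSpectrum (𝓞 k), ¬ 𝔣 ≤ q.asIdeal → Unram k H q)
    (h : (∃ v : HeightOneSpectrum (𝓞 k), (2 : 𝓞 k) ∈ v.asIdeal ∧ Unram k H v) ∨
      Nat.card (Subgroup.closure {g : Gal(H/k) | ∃ q ∈ S, ∃ Q : Place H, Over k H Q q ∧
        ∀ x : H, nabs Q (g x) = nabs Q x}) ≤ 2 ^ (S.card - 1) ∨
      NotMaximal k H)
    (φ : H →+* ℂ) (hφ : (InfinitePlace.mk (φ.comp (algebraMap k H))).IsComplex)
    (a : Ideal (𝓞 k) → Gal(H/k)) (ha : IsArtin S a) (ζ : Gal(H/k) → ℂ → ℂ)
    (hζ : ∀ ρ, IsZeta S a ρ (ζ ρ)) :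
    ∃ u : (𝓞 H)ˣ,
      (∀ ρ : Gal(H/k), deriv (ζ ρ) 0 =
        -(1 / W H) * (Real.log (‖φ (ρ ((u : 𝓞 H) : H))‖ ^ 2) : ℝ)) ∧
      (∀ τ : H →+* ℂ, (InfinitePlace.mk (τ.comp (algebraMap k H))).IsReal →
        ‖τ ((u : 𝓞 H) : H)‖ = 1) ∧
      AbRoot k (W H) ((u : 𝓞 H) : H) := by
  have hc : Fintype.card (InfinitePlace k) = InfinitePlace.nrRealPlaces k + 1 := by
    rw [InfinitePlace.card_eq_nrRealPlaces_add_nrComplexPlaces, hk.complex]
  have h3 : 3 ≤ S.card := by
    by_cases h1 : InfinitePlace.nrRealPlaces k = 1
    · exact hS.card (hf1 h1) (by omega) hf0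
    · have := hk.real
      exact hS.card' (by omega)
  exact Pool.Agent.STk.complex_page_d h2 S h3 hS.inf
    (fun q hq => hu q fun h => hq ((hS.fin q).2 h)) hk.complex
    (h.imp_right fun h => h.imp_right notMaximal) φ hφ a ha ζ hζ

end Pool.Agent.Results.MP_29cb78_nt.ExponentTwo
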